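import Pool.Agent.helper36.HK.Spec

set_option autoImplicit false

open Finset
open Pool.Agent.FI

noncomputable section

namespace Pool.Agent.HK

private theorem VAB_add (F G : ℤ × ℤ → ℂ) (B : ℕ) :
    Va (fun z => F z + G z) B ≤ Va F B + Va G B := by
  unfold Va
  rw [← Finset.sum_add_distrib]
  apply Finset.sum_le_sum
  intro z _
  have h1 : ‖(F (z.1 + 1, z.2) + G (z.1 + 1, z.2)) - (F z + G z)‖ ≤
      ‖F (z.1 + 1, z.2) - F z‖ + ‖G (z.1 + 1, z.2) - G z‖ := by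
    rw [add_sub_add_comm]; exact norm_add_le _ _
  have h2 : ‖(F (z.1, z.2 + 1) + G (z.1, z.2 + 1)) - (F z + G z)‖ ≤
      ‖F (z.1, z.2 + 1) - F z‖ + ‖G (z.1, z.2 + 1) - G z‖ := by
    rw [add_sub_add_comm]; exact norm_add_le _ _
  linarith

private theorem VAB_log (A B : ℝ) (hA : 0 < A) (hB : 0 < B) (h1 : A ≤ 7 * B) (h2 : B ≤ 7 * A) :
    |Real.log (A / B)| ≤ 2 := by
  rw [Real.log_div hA.ne' hB.ne', abs_le]
  have h7 : Real.log 7 ≤ 2 := by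
    rw [Real.log_le_iff_le_exp (by norm_num)]
    have := Real.exp_one_gt_d9
    have h : Real.exp 2 = Real.exp 1 * Real.exp 1 := by rw [← Real.exp_add]; norm_num
    rw [h]; nlinarith
  have e1 : Real.log A ≤ Real.log 7 + Real.log B := by
    rw [← Real.log_mul (by norm_num) hB.ne']; exact Real.log_le_log hA h1
  have e2 : Real.log B ≤ Real.log 7 + Real.log A := by
    rw [← Real.log_mul (by norm_num) hA.ne']; exact Real.log_le_log hB h2
  constructor <;> linarith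

private theorem VAB_s8 : (28 : ℝ) / 10 < √8 ∧ √8 < 29 / 10 := by
  constructor
  · apply Real.lt_sqrt_of_sq_lt; norm_num
  · rw [Real.sqrt_lt' (by norm_num)]; norm_num

private theorem VAB_y1 (a l : ℤ) (h : 4 * |l| < a) : 0 < (a : ℝ) + l * √8 ∧ 0 < (a : ℝ) - l * √8 ∧
    yy (a, l) = Real.log (((a : ℝ) + l * √8) / ((a : ℝ) - l * √8)) ∧ |yy (a, l)| ≤ 2 := by
  obtain ⟨s1, s2⟩ := VAB_s8
  have h' : 4 * |(l : ℝ)| < a := by exact_mod_cast h
  have ha := abs_nonneg (l : ℝ)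
  have h3 : |(l : ℝ) * √8| ≤ 3 * |(l : ℝ)| := by
    rw [abs_mul, abs_of_pos (show (0 : ℝ) < √8 by linarith)]
    nlinarith
  rw [abs_le] at h3
  have p1 : 0 < (a : ℝ) + l * √8 := by linarith [h3.1]
  have p2 : 0 < (a : ℝ) - l * √8 := by linarith [h3.2]
  have e : yy (a, l) = Real.log (((a : ℝ) + l * √8) / ((a : ℝ) - l * √8)) := by
    unfold yy
    rw [abs_of_pos p1, abs_of_pos p2]
  refine ⟨p1, p2, e, ?_⟩
  rw [e]
  apply VAB_log _ _ p1 p2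
  · linarith [h3.2]
  · linarith [h3.1]

private theorem VAB_y2 (a l : ℤ) (h : |a| < 2 * l) : 0 < (l : ℝ) * √8 + a ∧ 0 < (l : ℝ) * √8 - a ∧
    yy (a, l) = Real.log (((l : ℝ) * √8 + a) / ((l : ℝ) * √8 - a)) ∧ |yy (a, l)| ≤ 2 := by
  obtain ⟨s1, s2⟩ := VAB_s8
  have h' : |(a : ℝ)| < 2 * l := by exact_mod_cast h
  have ha := abs_nonneg (a : ℝ)
  have h3 : (28 / 10 : ℝ) * l ≤ l * √8 := by
    have : (0 : ℝ) < l := by linarith
    nlinarith
  have h4 := abs_le.1 (le_refl |(a : ℝ)|)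
  have p1 : 0 < (l : ℝ) * √8 + a := by linarith [h4.1]
  have p2 : 0 < (l : ℝ) * √8 - a := by linarith [h4.2]
  have e : yy (a, l) = Real.log (((l : ℝ) * √8 + a) / ((l : ℝ) * √8 - a)) := by
    unfold yy
    rw [show ((a, l) : ℤ × ℤ).1 = a from rfl, show ((a, l) : ℤ × ℤ).2 = l from rfl,
      abs_sub_comm (a : ℝ) (l * √8), add_comm (a : ℝ) (l * √8), abs_of_pos p1, abs_of_pos p2]
  refine ⟨p1, p2, e, ?_⟩
  rw [e]
  apply VAB_log _ _ p1 p2
  · linarith [h4.2]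
  · linarith [h4.1]

private theorem VAB_m1 (a l a' l' : ℤ) (h : 4 * |l| < a) (h' : 4 * |l'| < a') (hc : l * a' ≤ l' * a) :
    yy (a, l) ≤ yy (a', l') := by
  obtain ⟨p1, p2, e, _⟩ := VAB_y1 a l h
  obtain ⟨q1, q2, f, _⟩ := VAB_y1 a' l' h'
  rw [e, f]
  apply Real.log_le_log (div_pos p1 p2)
  rw [div_le_div_iff₀ p2 q2]
  have hc' : (l : ℝ) * a' ≤ l' * a := by exact_mod_cast hc
  have hs : (0 : ℝ) ≤ √8 := Real.sqrt_nonneg _
  have := mul_le_mul_of_nonneg_right hc' hs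
  nlinarith

private theorem VAB_m2 (a l a' l' : ℤ) (h : |a| < 2 * l) (h' : |a'| < 2 * l') (hc : a * l' ≤ a' * l) :
    yy (a, l) ≤ yy (a', l') := by
  obtain ⟨p1, p2, e, _⟩ := VAB_y2 a l h
  obtain ⟨q1, q2, f, _⟩ := VAB_y2 a' l' h'
  rw [e, f]
  apply Real.log_le_log (div_pos p1 p2)
  rw [div_le_div_iff₀ p2 q2]
  have hc' : (a : ℝ) * l' ≤ a' * l := by exact_mod_cast hc
  have hs : (0 : ℝ) ≤ √8 := Real.sqrt_nonneg _
  have := mul_le_mul_of_nonneg_right hc' hs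
  nlinarith

private theorem VAB_n1 (a l : ℤ) (y : ℕ) (h : 4 * |l| < a) :
    nn (a, l) ≤ y ↔ a ^ 2 - 8 * l ^ 2 ≤ y := by
  unfold nn N8
  have h0 := abs_nonneg l
  have h1 : (4 * |l|) ^ 2 < a ^ 2 := by
    apply pow_lt_pow_left₀ h (by positivity) (by norm_num)
  rw [mul_pow, sq_abs] at h1
  have h2 := sq_nonneg l
  simp only
  omega

private theorem VAB_n2 (a l : ℤ) (y : ℕ) (h : |a| < 2 * l) :
    nn (a, l) ≤ y ↔ 8 * l ^ 2 - a ^ 2 ≤ y := by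
  unfold nn N8
  have h0 := abs_nonneg a
  have h1 : |a| ^ 2 < (2 * l) ^ 2 := by
    apply pow_lt_pow_left₀ h (by positivity) (by norm_num)
  rw [mul_pow, sq_abs] at h1
  have h2 := sq_nonneg l
  simp only
  omega

private theorem VAB_r1 (a l : ℤ) (y : ℕ) (h : 4 * |l| < a) (hn : nn (a, l) ≤ y) :
    |a| ≤ (Nat.sqrt (2 * y) : ℤ) ∧ |l| ≤ (Nat.sqrt (2 * y) : ℤ) ∧ 0 < y := by
  rw [VAB_n1 a l y h] at hn
  have h0 := abs_nonneg l
  have h1 : (4 * |l|) ^ 2 < a ^ 2 := by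
    apply pow_lt_pow_left₀ h (by positivity) (by norm_num)
  rw [mul_pow, sq_abs] at h1
  have h2 := sq_nonneg l
  have ha : 0 < a := by omega
  have h3 : a.natAbs ≤ Nat.sqrt (2 * y) := by
    rw [Nat.le_sqrt']
    have : ((a.natAbs ^ 2 : ℕ) : ℤ) ≤ ((2 * y : ℕ) : ℤ) := by
      push_cast
      rw [sq_abs]
      omega
    exact_mod_cast this
  have h5 : |a| ≤ (Nat.sqrt (2 * y) : ℤ) := by rw [Int.abs_eq_natAbs]; exact_mod_cast h3
  refine ⟨h5, ?_, ?_⟩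
  · have : |l| ≤ |a| := by rw [abs_of_pos ha]; omega
    omega
  · have : 0 < a ^ 2 := by positivity
    omega

private theorem VAB_r2 (a l : ℤ) (y : ℕ) (h : |a| < 2 * l) (hn : nn (a, l) ≤ y) :
    |a| ≤ (Nat.sqrt (2 * y) : ℤ) ∧ |l| ≤ (Nat.sqrt (2 * y) : ℤ) ∧ 0 < y := by
  rw [VAB_n2 a l y h] at hn
  have h0 := abs_nonneg a
  have h1 : |a| ^ 2 < (2 * l) ^ 2 := by
    apply pow_lt_pow_left₀ h (by positivity) (by norm_num)
  rw [mul_pow, sq_abs] at h1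
  have h2 := sq_nonneg l
  have ha2 := sq_nonneg a
  have hl : 0 < l := by omega
  have hl2 : 0 < l ^ 2 := by positivity
  have h3 : a.natAbs ≤ Nat.sqrt (2 * y) := by
    rw [Nat.le_sqrt']
    have : ((a.natAbs ^ 2 : ℕ) : ℤ) ≤ ((2 * y : ℕ) : ℤ) := by
      push_cast
      rw [sq_abs]
      omega
    exact_mod_cast this
  have h4 : l.natAbs ≤ Nat.sqrt (2 * y) := by
    rw [Nat.le_sqrt']
    have : ((l.natAbs ^ 2 : ℕ) : ℤ) ≤ ((2 * y : ℕ) : ℤ) := by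
      push_cast
      rw [sq_abs]
      omega
    exact_mod_cast this
  refine ⟨?_, ?_, by omega⟩
  · rw [Int.abs_eq_natAbs]; exact_mod_cast h3
  · rw [Int.abs_eq_natAbs]; exact_mod_cast h4

open scoped Classical in
private def VAB_G (κ : ℝ) (s : ℂ) (P : ℤ × ℤ → Prop) (z : ℤ × ℤ) : ℂ :=
  if P z then s * Complex.exp (κ * yy z * Complex.I) else 0

private def VAB_P1 (y : ℕ) (z : ℤ × ℤ) : Prop := (0 ≤ z.2 ∧ 4 * |z.2| < z.1) ∧ nn z ≤ y
private def VAB_P2 (y : ℕ) (z : ℤ × ℤ) : Prop := (z.2 < 0 ∧ 4 * |z.2| < z.1) ∧ nn z ≤ y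
private def VAB_P3 (y : ℕ) (z : ℤ × ℤ) : Prop := (0 ≤ z.1 ∧ |z.1| < 2 * z.2) ∧ nn z ≤ y
private def VAB_P4 (y : ℕ) (z : ℤ × ℤ) : Prop := (z.1 < 0 ∧ |z.1| < 2 * z.2) ∧ nn z ≤ y

private theorem VAB_dec (i : ℕ) (κ : ℝ) (y : ℕ) : Fy i κ y = fun z =>
    (VAB_G κ 1 (VAB_P1 y) z + VAB_G κ 1 (VAB_P2 y) z) +
    (VAB_G κ ((-1) ^ i) (VAB_P3 y) z + VAB_G κ ((-1) ^ i) (VAB_P4 y) z) := by
  funext z
  obtain ⟨a, l⟩ := z
  unfold Fy VAB_G VAB_P1 VAB_P2 VAB_P3 VAB_P4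
  simp only
  by_cases hy : nn (a, l) ≤ y
  swap
  · simp [hy]
  by_cases h1 : 4 * |l| < a
  · have h2 : ¬ |a| < 2 * l := by
      have := abs_nonneg l
      have := le_abs_self a
      have := le_abs_self l
      omega
    have h3 : (N8 (a, l)).sign = 1 := by
      rw [Int.sign_eq_one_iff_pos]
      unfold N8
      have h0 := abs_nonneg l
      have h1 : (4 * |l|) ^ 2 < a ^ 2 := by
        apply pow_lt_pow_left₀ h1 (by positivity) (by norm_num)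
      rw [mul_pow, sq_abs] at h1
      have h2 := sq_nonneg l
      simp only
      omega
    rw [h3]
    by_cases hl : 0 ≤ l
    · have hl' : ¬ l < 0 := by omega
      simp [h1, h2, hl, hl', hy]
    · have hl' : l < 0 := by omega
      simp [h1, h2, hl, hl', hy]
  · by_cases h2 : |a| < 2 * l
    · have h3 : (N8 (a, l)).sign = -1 := by
        rw [Int.sign_eq_neg_one_iff_neg]
        unfold N8
        have h0 := abs_nonneg a
        have h1 : |a| ^ 2 < (2 * l) ^ 2 := by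
          apply pow_lt_pow_left₀ h2 (by positivity) (by norm_num)
        rw [mul_pow, sq_abs] at h1
        have h2 := sq_nonneg l
        simp only
        omega
      rw [h3]
      by_cases hl : 0 ≤ a
      · have hl' : ¬ a < 0 := by omega
        simp [h1, h2, hl, hl', hy]
      · have hl' : a < 0 := by omega
        simp [h1, h2, hl, hl', hy]
    · simp [h1, h2]

theorem VAB (hTV2 : TV2_stmt) : VAB_stmt := by
  classical
  refine ⟨128, by norm_num, ?_⟩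
  intro i κ y B
  rcases Nat.eq_zero_or_pos y with hy | hy
  · subst hy
    have h0 : Fy i κ 0 = fun _ => 0 := by
      funext z
      obtain ⟨a, l⟩ := z
      unfold Fy
      rw [if_neg]
      rintro ⟨h1 | h1, h2⟩
      · exact absurd (VAB_r1 a l 0 h1 h2).2.2 (by omega)
      · exact absurd (VAB_r2 a l 0 h1 h2).2.2 (by omega)
    rw [h0]
    unfold Va
    simp
  have hR : (2 * (Nat.sqrt (2 * y) : ℝ) + 1) ≤ 4 * √(y : ℝ) := by
    have h1 : (Nat.sqrt (2 * y) : ℝ) ^ 2 ≤ 2 * y := by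
      have := Nat.sqrt_le' (2 * y)
      exact_mod_cast this
    have h2 : √(y : ℝ) ^ 2 = y := Real.sq_sqrt (by positivity)
    have h3 : (1 : ℝ) ≤ √(y : ℝ) := by
      rw [Real.one_le_sqrt]; exact_mod_cast hy
    have h4 : (Nat.sqrt (2 * y) : ℝ) ≤ 3 / 2 * √(y : ℝ) := by
      apply le_of_sq_le_sq _ (by positivity)
      rw [mul_pow, h2]
      have : (0 : ℝ) ≤ y := by positivity
      nlinarith
    linarith
  have hb : 2 * (2 * (Nat.sqrt (2 * y) : ℝ) + 1) * (2 + 2 * 2 * |κ|) ≤ 32 * (1 + |κ|) * √(y : ℝ) := by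
    have hk := abs_nonneg κ
    have hs := Real.sqrt_nonneg (y : ℝ)
    have : 2 * (2 * (Nat.sqrt (2 * y) : ℝ) + 1) * (2 + 2 * 2 * |κ|) ≤
        2 * (4 * √(y : ℝ)) * (2 + 2 * 2 * |κ|) := by
      gcongr
    nlinarith [mul_nonneg hk hs]
  have hs : ‖(-1 : ℂ) ^ i‖ ≤ 1 := by simp
  have t1 : Va (VAB_G κ 1 (VAB_P1 y)) B ≤ _ := hTV2 (VAB_P1 y) yy κ 2 1 (Nat.sqrt (2 * y)) B
    (by simp) (by norm_num) (fun z hz => (VAB_y1 z.1 z.2 hz.1.2).2.2.2)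
    (fun z hz => ⟨(VAB_r1 z.1 z.2 y hz.1.2 hz.2).1, (VAB_r1 z.1 z.2 y hz.1.2 hz.2).2.1⟩)
    (by
      rintro l a b c hab hbc ⟨⟨h1, h2⟩, h3⟩ ⟨⟨h4, h5⟩, h6⟩
      simp only at h1 h2 h4 h5
      unfold VAB_P1
      simp only
      have hlb : 4 * |l| < b := by omega
      rw [VAB_n1 _ _ _ h5] at h6
      rw [VAB_n1 _ _ _ hlb]
      refine ⟨⟨h1, hlb⟩, ?_⟩
      have := abs_nonneg l
      have : b ^ 2 ≤ c ^ 2 := by apply pow_le_pow_left₀ (by omega) hbc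
      omega)
    (by
      rintro l a b c hab hbc ⟨⟨h1, h2⟩, h3⟩ ⟨⟨h4, h5⟩, h6⟩
      simp only at h1 h2 h4 h5
      unfold VAB_P1
      simp only
      have hb : 0 ≤ b := by omega
      have hlb : 4 * |b| < l := by
        rw [abs_of_nonneg h4] at h5
        rw [abs_of_nonneg hb]
        omega
      rw [VAB_n1 _ _ _ h2] at h3
      rw [VAB_n1 _ _ _ hlb]
      refine ⟨⟨hb, hlb⟩, ?_⟩
      have : a ^ 2 ≤ b ^ 2 := by apply pow_le_pow_left₀ h1 hab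
      omega)
    (by
      intro l
      right
      rintro a b hab ⟨⟨h1, h2⟩, h3⟩ ⟨⟨h4, h5⟩, h6⟩
      simp only at h1 h2 h4 h5
      apply VAB_m1 _ _ _ _ h5 h2
      nlinarith)
    (by
      intro l
      left
      rintro a b hab ⟨⟨h1, h2⟩, h3⟩ ⟨⟨h4, h5⟩, h6⟩
      simp only at h1 h2 h4 h5
      apply VAB_m1 _ _ _ _ h2 h5
      have := abs_nonneg a
      nlinarith)
  have t2 : Va (VAB_G κ 1 (VAB_P2 y)) B ≤ _ := hTV2 (VAB_P2 y) yy κ 2 1 (Nat.sqrt (2 * y)) B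
    (by simp) (by norm_num) (fun z hz => (VAB_y1 z.1 z.2 hz.1.2).2.2.2)
    (fun z hz => ⟨(VAB_r1 z.1 z.2 y hz.1.2 hz.2).1, (VAB_r1 z.1 z.2 y hz.1.2 hz.2).2.1⟩)
    (by
      rintro l a b c hab hbc ⟨⟨h1, h2⟩, h3⟩ ⟨⟨h4, h5⟩, h6⟩
      simp only at h1 h2 h4 h5
      unfold VAB_P2
      simp only
      have hlb : 4 * |l| < b := by omega
      rw [VAB_n1 _ _ _ h5] at h6
      rw [VAB_n1 _ _ _ hlb]
      refine ⟨⟨h1, hlb⟩, ?_⟩
      have := abs_nonneg l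
      have : b ^ 2 ≤ c ^ 2 := by apply pow_le_pow_left₀ (by omega) hbc
      omega)
    (by
      rintro l a b c hab hbc ⟨⟨h1, h2⟩, h3⟩ ⟨⟨h4, h5⟩, h6⟩
      simp only at h1 h2 h4 h5
      unfold VAB_P2
      simp only
      have hb : b < 0 := by omega
      have hlb : 4 * |b| < l := by
        rw [abs_of_neg h1] at h2
        rw [abs_of_neg hb]
        omega
      rw [VAB_n1 _ _ _ h5] at h6
      rw [VAB_n1 _ _ _ hlb]
      refine ⟨⟨hb, hlb⟩, ?_⟩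
      have : c ^ 2 ≤ b ^ 2 := by nlinarith
      omega)
    (by
      intro l
      left
      rintro a b hab ⟨⟨h1, h2⟩, h3⟩ ⟨⟨h4, h5⟩, h6⟩
      simp only at h1 h2 h4 h5
      apply VAB_m1 _ _ _ _ h2 h5
      nlinarith)
    (by
      intro l
      left
      rintro a b hab ⟨⟨h1, h2⟩, h3⟩ ⟨⟨h4, h5⟩, h6⟩
      simp only at h1 h2 h4 h5
      apply VAB_m1 _ _ _ _ h2 h5
      have := abs_nonneg a
      nlinarith)
  have t3 : Va (VAB_G κ ((-1 : ℂ) ^ i) (VAB_P3 y)) B ≤ _ := hTV2 (VAB_P3 y) yy κ 2 ((-1 : ℂ) ^ i)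
    (Nat.sqrt (2 * y)) B hs (by norm_num) (fun z hz => (VAB_y2 z.1 z.2 hz.1.2).2.2.2)
    (fun z hz => ⟨(VAB_r2 z.1 z.2 y hz.1.2 hz.2).1, (VAB_r2 z.1 z.2 y hz.1.2 hz.2).2.1⟩)
    (by
      rintro l a b c hab hbc ⟨⟨h1, h2⟩, h3⟩ ⟨⟨h4, h5⟩, h6⟩
      simp only at h1 h2 h4 h5
      unfold VAB_P3
      simp only
      have hb : 0 ≤ b := by omega
      have hlb : |b| < 2 * l := by
        rw [abs_of_nonneg h4] at h5
        rw [abs_of_nonneg hb]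
        omega
      rw [VAB_n2 _ _ _ h2] at h3
      rw [VAB_n2 _ _ _ hlb]
      refine ⟨⟨hb, hlb⟩, ?_⟩
      have : a ^ 2 ≤ b ^ 2 := by apply pow_le_pow_left₀ h1 hab
      omega)
    (by
      rintro l a b c hab hbc ⟨⟨h1, h2⟩, h3⟩ ⟨⟨h4, h5⟩, h6⟩
      simp only at h1 h2 h4 h5
      unfold VAB_P3
      simp only
      have hlb : |l| < 2 * b := by omega
      rw [VAB_n2 _ _ _ h5] at h6
      rw [VAB_n2 _ _ _ hlb]
      refine ⟨⟨h1, hlb⟩, ?_⟩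
      have := abs_nonneg l
      have : b ^ 2 ≤ c ^ 2 := by apply pow_le_pow_left₀ (by omega) hbc
      omega)
    (by
      intro l
      left
      rintro a b hab ⟨⟨h1, h2⟩, h3⟩ ⟨⟨h4, h5⟩, h6⟩
      simp only at h1 h2 h4 h5
      apply VAB_m2 _ _ _ _ h2 h5
      have := abs_nonneg a
      nlinarith)
    (by
      intro l
      right
      rintro a b hab ⟨⟨h1, h2⟩, h3⟩ ⟨⟨h4, h5⟩, h6⟩
      simp only at h1 h2 h4 h5
      apply VAB_m2 _ _ _ _ h5 h2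
      nlinarith)
  have t4 : Va (VAB_G κ ((-1 : ℂ) ^ i) (VAB_P4 y)) B ≤ _ := hTV2 (VAB_P4 y) yy κ 2 ((-1 : ℂ) ^ i)
    (Nat.sqrt (2 * y)) B hs (by norm_num) (fun z hz => (VAB_y2 z.1 z.2 hz.1.2).2.2.2)
    (fun z hz => ⟨(VAB_r2 z.1 z.2 y hz.1.2 hz.2).1, (VAB_r2 z.1 z.2 y hz.1.2 hz.2).2.1⟩)
    (by
      rintro l a b c hab hbc ⟨⟨h1, h2⟩, h3⟩ ⟨⟨h4, h5⟩, h6⟩
      simp only at h1 h2 h4 h5
      unfold VAB_P4
      simp only
      have hb : b < 0 := by omega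
      have hlb : |b| < 2 * l := by
        rw [abs_of_neg h1] at h2
        rw [abs_of_neg hb]
        omega
      rw [VAB_n2 _ _ _ h5] at h6
      rw [VAB_n2 _ _ _ hlb]
      refine ⟨⟨hb, hlb⟩, ?_⟩
      have : c ^ 2 ≤ b ^ 2 := by nlinarith
      omega)
    (by
      rintro l a b c hab hbc ⟨⟨h1, h2⟩, h3⟩ ⟨⟨h4, h5⟩, h6⟩
      simp only at h1 h2 h4 h5
      unfold VAB_P4
      simp only
      have hlb : |l| < 2 * b := by omega
      rw [VAB_n2 _ _ _ h5] at h6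
      rw [VAB_n2 _ _ _ hlb]
      refine ⟨⟨h1, hlb⟩, ?_⟩
      have := abs_nonneg l
      have : b ^ 2 ≤ c ^ 2 := by apply pow_le_pow_left₀ (by omega) hbc
      omega)
    (by
      intro l
      left
      rintro a b hab ⟨⟨h1, h2⟩, h3⟩ ⟨⟨h4, h5⟩, h6⟩
      simp only at h1 h2 h4 h5
      apply VAB_m2 _ _ _ _ h2 h5
      have := abs_nonneg a
      nlinarith)
    (by
      intro l
      left
      rintro a b hab ⟨⟨h1, h2⟩, h3⟩ ⟨⟨h4, h5⟩, h6⟩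
      simp only at h1 h2 h4 h5
      apply VAB_m2 _ _ _ _ h2 h5
      nlinarith)
  rw [VAB_dec]
  refine (VAB_add _ _ B).trans ?_
  have u1 := VAB_add (VAB_G κ 1 (VAB_P1 y)) (VAB_G κ 1 (VAB_P2 y)) B
  have u2 := VAB_add (VAB_G κ ((-1) ^ i) (VAB_P3 y)) (VAB_G κ ((-1) ^ i) (VAB_P4 y)) B
  refine (add_le_add u1 u2).trans ?_
  refine (add_le_add (add_le_add (t1.trans hb) (t2.trans hb))
    (add_le_add (t3.trans hb) (t4.trans hb))).trans ?_
  exact le_of_eq (by ring)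

end Pool.Agent.HK
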